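import Mathlib

set_option autoImplicit false

/-!
# The density of the squarefree integers coprime to 10
-/

namespace Pool.Agent.Helper64.SQ

open Finset Filter Topology DirichletCharacter
open scoped ArithmeticFunction.Moebius LSeries.notation

/-- the terms -/
noncomputable def ff (n : ℕ) : ℝ := if n.Coprime 10 then (ArithmeticFunction.moebius n : ℝ) / (n : ℝ) ^ 2 else 0

lemma abs_ff (n : ℕ) : |ff n| ≤ ((n : ℝ) ^ 2)⁻¹ := by
  unfold ff
  split_ifs with h
  · rw [abs_div, abs_of_nonneg (by positivity : (0 : ℝ) ≤ (n : ℝ) ^ 2), div_eq_mul_inv]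
    have h1 : |(ArithmeticFunction.moebius n : ℝ)| ≤ 1 := by
      have := ArithmeticFunction.abs_moebius_le_one (n := n)
      exact_mod_cast this
    calc _ ≤ 1 * ((n : ℝ) ^ 2)⁻¹ := mul_le_mul_of_nonneg_right h1 (by positivity)
      _ = _ := one_mul _
  · rw [abs_zero]
    positivity

lemma ff_summable : Summable ff :=
  Summable.of_norm_bounded (Real.summable_nat_pow_inv.2 (by norm_num)) (fun n => abs_ff n)

lemma ff_tsum : ∑' n, ff n = 25 / (3 * Real.pi ^ 2) := by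
  have hs : (1 : ℝ) < (2 : ℂ).re := by norm_num
  have h1 := LSeries.mul_mu_eq_one (1 : DirichletCharacter ℂ 10) hs
  have h2 := LFunctionTrivChar_eq_mul_riemannZeta (N := 10) (s := 2) (by norm_num)
  rw [LFunctionTrivChar, LFunction_eq_LSeries _ hs, riemannZeta_two] at h2
  have h3 : (10 : ℕ).primeFactors = {2, 5} := by
    rw [show (10 : ℕ) = 2 * 5 by norm_num, Nat.primeFactors_mul (by norm_num) (by norm_num),
      Nat.Prime.primeFactors (by norm_num), Nat.Prime.primeFactors (by norm_num)]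
    rfl
  rw [h3, Finset.prod_pair (by norm_num)] at h2
  have h4 : LSeries (fun n : ℕ => (1 : DirichletCharacter ℂ 10) (n : ZMod 10)) 2 = 3 * Real.pi ^ 2 / 25 := by
    rw [h2]
    have e1 : ((2 : ℕ) : ℂ) ^ (-2 : ℂ) = 1 / 4 := by
      rw [Complex.cpow_neg, show (2 : ℂ) = ((2 : ℕ) : ℂ) by norm_num, Complex.cpow_natCast]
      norm_num
    have e2 : ((5 : ℕ) : ℂ) ^ (-2 : ℂ) = 1 / 25 := by
      rw [Complex.cpow_neg, show (2 : ℂ) = ((2 : ℕ) : ℂ) by norm_num, Complex.cpow_natCast]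
      norm_num
    rw [e1, e2]
    ring
  rw [h4] at h1
  have hpi : (Real.pi : ℂ) ≠ 0 := by exact_mod_cast Real.pi_ne_zero
  have h5 : LSeries ((fun n : ℕ => (1 : DirichletCharacter ℂ 10) (n : ZMod 10)) * fun n : ℕ => ((ArithmeticFunction.moebius n : ℤ) : ℂ)) 2 =
      25 / (3 * Real.pi ^ 2) := by
    have h6 : (3 * (Real.pi : ℂ) ^ 2 / 25) * LSeries ((fun n : ℕ => (1 : DirichletCharacter ℂ 10) (n : ZMod 10)) * fun n : ℕ => ((ArithmeticFunction.moebius n : ℤ) : ℂ)) 2 = 1 := h1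
    rw [eq_div_iff (mul_ne_zero (by norm_num) (pow_ne_zero _ hpi))]
    linear_combination 25 * h6
  have h7 : ∀ n : ℕ, LSeries.term ((fun n : ℕ => (1 : DirichletCharacter ℂ 10) (n : ZMod 10)) * fun n : ℕ => ((ArithmeticFunction.moebius n : ℤ) : ℂ)) 2 n = ((ff n : ℝ) : ℂ) := by
    intro n
    rcases eq_or_ne n 0 with rfl | hn
    · simp [ff]
    · rw [LSeries.term_of_ne_zero hn]
      unfold ff
      have e3 : (n : ℂ) ^ (2 : ℂ) = (n : ℂ) ^ 2 := by
        rw [show (2 : ℂ) = ((2 : ℕ) : ℂ) by norm_num, Complex.cpow_natCast]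
      rw [e3]
      simp only [Pi.mul_apply]
      split_ifs with h
      · have : IsUnit (n : ZMod 10) := (ZMod.isUnit_iff_coprime n 10).2 h
        rw [MulChar.one_apply this]
        push_cast
        ring
      · have : ¬ IsUnit (n : ZMod 10) := fun h' => h ((ZMod.isUnit_iff_coprime n 10).1 h')
        rw [MulChar.map_nonunit _ this]
        simp
  unfold LSeries at h5
  rw [tsum_congr h7, ← Complex.ofReal_tsum] at h5
  have h8 : (((25 / (3 * Real.pi ^ 2) : ℝ)) : ℂ) = 25 / (3 * (Real.pi : ℂ) ^ 2) := by push_cast; ring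
  rw [← h8] at h5
  exact_mod_cast h5

theorem const (z : ℕ) (hz : 1 ≤ z) : |∑ d ∈ (Finset.Icc 1 z).filter (fun d => d.Coprime 10),
    (ArithmeticFunction.moebius d : ℝ) / (d : ℝ) ^ 2 - 25 / (3 * Real.pi ^ 2)| ≤ 1 / (z : ℝ) := by
  have h1 : ∀ N : ℕ, ∑ d ∈ (Finset.Icc 1 N).filter (fun d => d.Coprime 10),
      (ArithmeticFunction.moebius d : ℝ) / (d : ℝ) ^ 2 = ∑ d ∈ Finset.range (N + 1), ff d := by
    intro N
    rw [Finset.sum_filter, Finset.sum_range_succ', show ff 0 = 0 by simp [ff], add_zero]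
    rw [Finset.range_eq_Ico, Finset.sum_Ico_add' (fun d => ff d) 0 N 1]
    rfl
  rw [h1]
  have h2 : Tendsto (fun N : ℕ => ∑ d ∈ Finset.range (N + 1), ff d) atTop (𝓝 (25 / (3 * Real.pi ^ 2))) := by
    rw [← ff_tsum]
    exact (tendsto_add_atTop_iff_nat 1).2 ff_summable.hasSum.tendsto_sum_nat
  have h3 : Tendsto (fun N : ℕ => |∑ d ∈ Finset.range (z + 1), ff d - ∑ d ∈ Finset.range (N + 1), ff d|) atTop
      (𝓝 |∑ d ∈ Finset.range (z + 1), ff d - 25 / (3 * Real.pi ^ 2)|) := (h2.const_sub _).abs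
  refine le_of_tendsto h3 ?_
  filter_upwards [eventually_ge_atTop z] with N hN
  have h4 : ∑ d ∈ Finset.range (N + 1), ff d = ∑ d ∈ Finset.range (z + 1), ff d + ∑ d ∈ Finset.Ioc z N, ff d := by
    rw [← Finset.sum_range_add_sum_Ico _ (show z + 1 ≤ N + 1 by omega)]
    congr 2
    ext d
    simp only [Finset.mem_Ico, Finset.mem_Ioc]
    omega
  rw [h4, sub_add_cancel_left, abs_neg]
  calc |∑ d ∈ Finset.Ioc z N, ff d| ≤ ∑ d ∈ Finset.Ioc z N, |ff d| := Finset.abs_sum_le_sum_abs _ _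
    _ ≤ ∑ d ∈ Finset.Ioc z N, ((d : ℝ) ^ 2)⁻¹ := Finset.sum_le_sum (fun d _ => abs_ff d)
    _ ≤ (z : ℝ)⁻¹ - (N : ℝ)⁻¹ := sum_Ioc_inv_sq_le_sub (by omega) hN
    _ ≤ 1 / z := by
      rw [one_div]
      have : (0 : ℝ) ≤ (N : ℝ)⁻¹ := by positivity
      linarith

end Pool.Agent.Helper64.SQ
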