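import Pool.Graph.R_seed8.H476R2.Pal.Defs

set_option autoImplicit false

/-!
# A Parseval inequality for products of digit sums
-/

namespace Pool.Agent.Helper64.SQ

open Finset Pool.Agent.Helper112 Pool.Agent.H476R2.Pal

/-- orthogonality -/
lemma orth {q : ℕ} (hq : 0 < q) (c : ℤ) :
    ∑ w ∈ range q, ee ((w : ℝ) * ((c : ℝ) / q)) = if (q : ℤ) ∣ c then (q : ℂ) else 0 := by
  have hq0 : (q : ℝ) ≠ 0 := by exact_mod_cast hq.ne'
  simp_rw [ls_ee_nat_mul]
  split_ifs with h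
  · obtain ⟨d, rfl⟩ := h
    have : (((q : ℤ) * d : ℤ) : ℝ) / q = (d : ℝ) := by
      push_cast
      field_simp
    rw [this, ls_ee_int]
    simp
  · have h1 : ee ((c : ℝ) / q) ≠ 1 := by
      intro h2
      obtain ⟨n, hn⟩ := ls_ee_eq_one h2
      apply h
      rw [div_eq_iff hq0] at hn
      refine ⟨n, ?_⟩
      have : (c : ℝ) = ((q * n : ℤ) : ℝ) := by
        push_cast
        rw [hn]
        ring
      exact_mod_cast this
    have h2 : ee ((c : ℝ) / q) ^ q = 1 := by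
      rw [← ls_ee_nat_mul, mul_div_cancel₀ _ hq0, ls_ee_int]
    rw [geom_sum_eq h1, h2, sub_self, zero_div]

/-- the number of solutions of a congruence -/
lemma card_sol {q h : ℕ} (hq : 0 < q) (hh : 1 ≤ h) (n : ℕ) :
    ((range q).filter (fun n' : ℕ => (q : ℤ) ∣ (h : ℤ) * ((n' : ℤ) - n))).card ≤ h := by
  have hmaps : ∀ n' ∈ (range q).filter (fun n' : ℕ => (q : ℤ) ∣ (h : ℤ) * ((n' : ℤ) - n)), h * n' / q ∈ range h := by
    intro n' hn'
    rw [mem_filter, mem_range] at hn'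
    rw [mem_range, Nat.div_lt_iff_lt_mul hq]
    exact Nat.mul_lt_mul_of_pos_left hn'.1 (by omega)
  refine (card_le_card_of_injOn _ hmaps ?_).trans (card_range h).le
  intro a ha b hb hab
  rw [mem_coe, mem_filter] at ha hb
  simp only at hab
  have h1 : (q : ℤ) ∣ (h : ℤ) * a - (h : ℤ) * b := by
    have e : (h : ℤ) * a - (h : ℤ) * b = (h : ℤ) * ((a : ℤ) - n) - (h : ℤ) * ((b : ℤ) - n) := by ring
    rw [e]
    exact dvd_sub ha.2 hb.2
  have h2 : h * a % q = h * b % q := by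
    have h3 : ((h * a : ℕ) : ℤ) ≡ ((h * b : ℕ) : ℤ) [ZMOD q] := by
      apply Int.ModEq.symm
      rw [Int.modEq_iff_dvd]
      push_cast
      exact h1
    exact (Int.natCast_modEq_iff.1 h3)
  have h4 : h * a = h * b := by
    rw [← Nat.div_add_mod (h * a) q, ← Nat.div_add_mod (h * b) q, hab, h2]
  exact Nat.eq_of_mul_eq_mul_left (by omega) h4

/-- the mean square of an exponential polynomial -/
lemma mean_sq {q h : ℕ} (hq : 0 < q) (hh : 1 ≤ h) (b : ℕ → ℂ) (hb : ∀ n, ‖b n‖ ≤ 1) :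
    ∑ w ∈ range q, ‖∑ n ∈ range q, b n * ee (-((h : ℝ) * w * n / q))‖ ^ 2 ≤ (q : ℝ) ^ 2 * h := by
  classical
  have key : ((∑ w ∈ range q, ‖∑ n ∈ range q, b n * ee (-((h : ℝ) * w * n / q))‖ ^ 2 : ℝ) : ℂ) =
      ∑ n ∈ range q, ∑ n' ∈ range q, b n * (starRingEnd ℂ) (b n') *
        (if (q : ℤ) ∣ (h : ℤ) * ((n' : ℤ) - n) then (q : ℂ) else 0) := by
    push_cast
    calc _ = ∑ w ∈ range q, ∑ n ∈ range q, ∑ n' ∈ range q,
          b n * (starRingEnd ℂ) (b n') * ee ((w : ℝ) * ((((h : ℤ) * ((n' : ℤ) - n) : ℤ) : ℝ) / q)) := by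
          apply sum_congr rfl
          intro w _
          rw [← Complex.mul_conj', map_sum, sum_mul_sum]
          apply sum_congr rfl
          intro n _
          apply sum_congr rfl
          intro n' _
          rw [map_mul, ls_conj_ee, mul_mul_mul_comm, ← ls_ee_add]
          congr 2
          push_cast
          ring
      _ = ∑ n ∈ range q, ∑ n' ∈ range q, ∑ w ∈ range q,
          b n * (starRingEnd ℂ) (b n') * ee ((w : ℝ) * ((((h : ℤ) * ((n' : ℤ) - n) : ℤ) : ℝ) / q)) := by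
          rw [sum_comm]
          apply sum_congr rfl
          intro n _
          rw [sum_comm]
      _ = _ := by
          apply sum_congr rfl
          intro n _
          apply sum_congr rfl
          intro n' _
          rw [← mul_sum, orth hq]
  have h1 : ‖((∑ w ∈ range q, ‖∑ n ∈ range q, b n * ee (-((h : ℝ) * w * n / q))‖ ^ 2 : ℝ) : ℂ)‖ ≤ (q : ℝ) ^ 2 * h := by
    rw [key]
    calc _ ≤ ∑ n ∈ range q, ∑ n' ∈ range q, ‖b n * (starRingEnd ℂ) (b n') *
        (if (q : ℤ) ∣ (h : ℤ) * ((n' : ℤ) - n) then (q : ℂ) else 0)‖ :=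
          (norm_sum_le _ _).trans (sum_le_sum fun n _ => norm_sum_le _ _)
      _ ≤ ∑ n ∈ range q, ∑ n' ∈ range q, (if (q : ℤ) ∣ (h : ℤ) * ((n' : ℤ) - n) then (q : ℝ) else 0) := by
          apply sum_le_sum
          intro n _
          apply sum_le_sum
          intro n' _
          rw [norm_mul, norm_mul, RCLike.norm_conj]
          have h2 : ‖b n‖ * ‖b n'‖ ≤ 1 := by
            calc ‖b n‖ * ‖b n'‖ ≤ 1 * 1 := mul_le_mul (hb n) (hb n') (norm_nonneg _) zero_le_one
              _ = 1 := one_mul 1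
          split_ifs
          · rw [Complex.norm_natCast]
            calc _ ≤ 1 * (q : ℝ) := mul_le_mul_of_nonneg_right h2 (Nat.cast_nonneg _)
              _ = q := one_mul _
          · simp
      _ = ∑ n ∈ range q, (((range q).filter (fun n' : ℕ => (q : ℤ) ∣ (h : ℤ) * ((n' : ℤ) - n))).card : ℝ) * q := by
          apply sum_congr rfl
          intro n _
          rw [← sum_filter, sum_const, nsmul_eq_mul]
      _ ≤ ∑ n ∈ range q, (h : ℝ) * q := by
          apply sum_le_sum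
          intro n _
          exact mul_le_mul_of_nonneg_right (by exact_mod_cast card_sol hq hh n) (Nat.cast_nonneg _)
      _ = _ := by
          rw [sum_const, card_range, nsmul_eq_mul]
          ring
  rw [Complex.norm_real, Real.norm_of_nonneg (sum_nonneg fun _ _ => by positivity)] at h1
  exact h1

/-- a sum over `10 n + m` -/
lemma sum_digits (q : ℕ) (f : ℕ → ℂ) :
    ∑ n ∈ range q, ∑ m ∈ range 10, f (10 * n + m) = ∑ N ∈ range (10 * q), f N := by
  induction q with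
  | zero => simp
  | succ q ih =>
    rw [sum_range_succ, ih, show 10 * (q + 1) = 10 * q + 10 by ring, sum_range_add]

/-- the product of the digit sums as an exponential polynomial -/
lemma expand (h : ℕ) (θ : ℕ → ℝ) (J : ℕ) : ∃ b : ℕ → ℂ, (∀ n, ‖b n‖ ≤ 1) ∧ ∀ w : ℕ,
    ∏ i ∈ range J, ∑ m ∈ range 10, ee (m * (h * (-((w : ℝ) / 10 ^ (i + 1))) + θ i)) =
      ∑ n ∈ range (10 ^ J), b n * ee (-((h : ℝ) * w * n / ((10 ^ J : ℕ) : ℝ))) := by
  induction J with
  | zero =>
    refine ⟨fun _ => 1, fun n => by simp, fun w => ?_⟩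
    simp [ls_ee_zero]
  | succ J ih =>
    obtain ⟨b, hb, hw⟩ := ih
    refine ⟨fun N => b (N / 10) * ee (((N % 10 : ℕ) : ℝ) * θ J), fun N => ?_, fun w => ?_⟩
    · rw [norm_mul, ls_norm_ee, mul_one]
      exact hb _
    · have hp : (10 : ℕ) ^ (J + 1) = 10 * 10 ^ J := by rw [pow_succ, mul_comm]
      rw [prod_range_succ, hw, sum_mul_sum, hp, ← sum_digits]
      apply sum_congr rfl
      intro n _
      apply sum_congr rfl
      intro m hm
      rw [mem_range] at hm
      have e1 : (10 * n + m) / 10 = n := by omega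
      have e2 : (10 * n + m) % 10 = m := by omega
      simp only
      rw [e1, e2]
      have e3 : ee (-((h : ℝ) * w * n / ((10 ^ J : ℕ) : ℝ))) * ee (m * (h * (-((w : ℝ) / 10 ^ (J + 1))) + θ J)) =
          ee ((m : ℝ) * θ J) * ee (-((h : ℝ) * w * ((10 * n + m : ℕ) : ℝ) / ((10 * 10 ^ J : ℕ) : ℝ))) := by
        rw [← ls_ee_add, ← ls_ee_add]
        congr 1
        push_cast
        rw [pow_succ]
        field_simp
        ring
      rw [mul_assoc, e3]
      ring

theorem parseval (J h : ℕ) (hh : 1 ≤ h) (θ : ℕ → ℝ) :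
    ∑ w ∈ range (10 ^ J), ∏ i ∈ range J, ph (h * (-((w : ℝ) / 10 ^ (i + 1))) + θ i) ≤
      Real.sqrt ((10 : ℝ) ^ J * h) := by
  obtain ⟨b, hb, hw⟩ := expand h θ J
  have hq : 0 < 10 ^ J := by positivity
  have h1 := mean_sq hq hh b hb
  have h2 : ∀ w : ℕ, ∏ i ∈ range J, ph (h * (-((w : ℝ) / 10 ^ (i + 1))) + θ i) =
      ‖∑ n ∈ range (10 ^ J), b n * ee (-((h : ℝ) * w * n / ((10 ^ J : ℕ) : ℝ)))‖ / 10 ^ J := by
    intro w
    rw [← hw w, norm_prod]
    unfold ph
    rw [prod_div_distrib, prod_const, card_range]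
  apply Real.le_sqrt_of_sq_le
  have h4 : (∑ w ∈ range (10 ^ J), ∏ i ∈ range J, ph (h * (-((w : ℝ) / 10 ^ (i + 1))) + θ i)) ^ 2 ≤
      ((range (10 ^ J)).card : ℝ) * ∑ w ∈ range (10 ^ J), (∏ i ∈ range J, ph (h * (-((w : ℝ) / 10 ^ (i + 1))) + θ i)) ^ 2 :=
    sq_sum_le_card_mul_sum_sq
  refine h4.trans ?_
  rw [card_range]
  have h5 : ∑ w ∈ range (10 ^ J), (∏ i ∈ range J, ph (h * (-((w : ℝ) / 10 ^ (i + 1))) + θ i)) ^ 2 ≤ h := by
    have h6 : ∑ w ∈ range (10 ^ J), (∏ i ∈ range J, ph (h * (-((w : ℝ) / 10 ^ (i + 1))) + θ i)) ^ 2 =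
        (∑ w ∈ range (10 ^ J), ‖∑ n ∈ range (10 ^ J), b n * ee (-((h : ℝ) * w * n / ((10 ^ J : ℕ) : ℝ)))‖ ^ 2) / ((10 : ℝ) ^ J) ^ 2 := by
      rw [sum_div]
      apply sum_congr rfl
      intro w _
      rw [h2, div_pow]
    rw [h6, div_le_iff₀ (by positivity)]
    refine h1.trans (le_of_eq ?_)
    push_cast
    ring
  push_cast
  exact mul_le_mul_of_nonneg_left h5 (by positivity)

end Pool.Agent.Helper64.SQ
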